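import Pool.Agent.Helper32.B4.St

/-! Module EV of project B4: evolution of the coefficients where `θ` is constant. -/

set_option autoImplicit false

open Metric Set Filter Topology MeasureTheory
open scoped ComplexConjugate Interval

namespace Pool.Agent.Helper67.B4

open Pool.Agent.Helper32.B4 Pool.Agent.Helper32.DX Pool.Agent.Helper64.C3

theorem int_poly (α β : ℂ) (x y : ℝ) :
    ∫ v in x..y, (α * (v : ℂ) + β * (v : ℂ) ^ 2) =
      α * ((y : ℂ) ^ 2 - (x : ℂ) ^ 2) / 2 + β * ((y : ℂ) ^ 3 - (x : ℂ) ^ 3) / 3 := by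
  have h : ∀ v ∈ uIcc x y, HasDerivAt (fun v : ℝ => α * (v : ℂ) ^ 2 / 2 + β * (v : ℂ) ^ 3 / 3)
      (α * (v : ℂ) + β * (v : ℂ) ^ 2) v := by
    intro v _
    have h1 : HasDerivAt (fun v : ℝ => (v : ℂ)) 1 v := by
      simpa using (hasDerivAt_id v).ofReal_comp
    have h2 := ((h1.pow 2).const_mul (α / 2)).add ((h1.pow 3).const_mul (β / 3))
    have h3 : HasDerivAt (fun v : ℝ => α / 2 * (v : ℂ) ^ 2 + β / 3 * (v : ℂ) ^ 3)
      (α / 2 * (((2 : ℕ) : ℂ) * (v : ℂ) ^ (2 - 1) * 1) +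
        β / 3 * (((3 : ℕ) : ℂ) * (v : ℂ) ^ (3 - 1) * 1)) v := h2
    have h4 : (fun v : ℝ => α * (v : ℂ) ^ 2 / 2 + β * (v : ℂ) ^ 3 / 3) =
        fun v : ℝ => α / 2 * (v : ℂ) ^ 2 + β / 3 * (v : ℂ) ^ 3 := by
      funext v
      ring
    rw [h4]
    refine h3.congr_deriv ?_
    norm_num
    ring
  rw [intervalIntegral.integral_eq_sub_of_hasDerivAt h]
  · ring
  · apply Continuous.intervalIntegrable
    fun_prop

theorem int_congr_Ioc {g g' : ℝ → ℂ} {x y : ℝ} (hxy : x ≤ y) (h : ∀ u ∈ Ioc x y, g u = g' u) :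
    ∫ v in x..y, g v = ∫ v in x..y, g' v := by
  rw [intervalIntegral.integral_of_le hxy, intervalIntegral.integral_of_le hxy]
  exact setIntegral_congr_fun measurableSet_Ioc h

theorem ii_ee_pow {θ : ℝ → ℝ} (hθ : Measurable θ) (k : ℕ) (x y : ℝ) :
    IntervalIntegrable (fun v => ee θ v ^ k) volume x y := by
  refine ii_of_bdd (C := 1) ((meas_ee hθ).pow_const k).aestronglyMeasurable fun u _ => ?_
  rw [norm_pow, norm_ee, one_pow]

theorem ii_ee {θ : ℝ → ℝ} (hθ : Measurable θ) (x y : ℝ) :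
    IntervalIntegrable (ee θ) volume x y := by
  have := ii_ee_pow hθ 1 x y
  simpa using this

theorem cont_c0 {θ : ℝ → ℝ} (hθ : Measurable θ) : Continuous (c0 θ) := by
  have h1 := intervalIntegral.continuous_primitive (fun x y => ii_ee hθ x y) 1
  have h2 : c0 θ = fun a => 2 * ∫ v in (1 : ℝ)..a, ee θ v := by
    funext a
    rw [c0, intervalIntegral.integral_symm]
    ring
  rw [h2]
  exact continuous_const.mul h1

theorem c0_ev {θ : ℝ → ℝ} (hθ : Measurable θ) {a' a t : ℝ} (h : a' ≤ a)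
    (ht : ∀ u ∈ Ioc a' a, θ u = t) :
    c0 θ a' = c0 θ a - 2 * Complex.exp ((t : ℂ) * Complex.I) * ((a : ℂ) - a') := by
  unfold c0
  rw [← intervalIntegral.integral_add_adjacent_intervals (ii_ee hθ a' a) (ii_ee hθ a 1)]
  have : ∫ v in a'..a, ee θ v = ((a : ℂ) - a') * Complex.exp ((t : ℂ) * Complex.I) := by
    rw [int_congr_Ioc h (g' := fun _ => Complex.exp ((t : ℂ) * Complex.I))
      (fun u hu => by rw [ee, ht u hu])]
    rw [intervalIntegral.integral_const, Complex.real_smul]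
    push_cast
    ring
  rw [this]
  ring

theorem hEV : StEV := by
  intro θ hθ a' a t h0 h h1 ht
  have e0 := c0_ev hθ h ht
  have hee : ∀ u ∈ Ioc a' a, ee θ u = Complex.exp ((t : ℂ) * Complex.I) := fun u hu => by
    rw [ee, ht u hu]
  set e := Complex.exp ((t : ℂ) * Complex.I) with he
  refine ⟨e0, ?_, ?_⟩
  · unfold c1
    have hii : ∀ x y : ℝ, IntervalIntegrable (fun v : ℝ => (v : ℂ) * ee θ v ^ 2) volume x y :=
      fun x y => (ii_ee_pow hθ 2 x y).continuousOn_mul (by fun_prop)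
    rw [← intervalIntegral.integral_add_adjacent_intervals (hii a' a) (hii a 1)]
    have : ∫ v in a'..a, (v : ℂ) * ee θ v ^ 2 = e ^ 2 * ((a : ℂ) ^ 2 - (a' : ℂ) ^ 2) / 2 := by
      rw [int_congr_Ioc h (g' := fun v => e ^ 2 * (v : ℂ) + 0 * (v : ℂ) ^ 2)
        (fun u hu => by rw [hee u hu]; ring), int_poly]
      ring
    rw [this]
    ring
  · have hii : ∀ x y : ℝ, IntervalIntegrable
        (fun v : ℝ => (v : ℂ) * ee θ v ^ 2 * c0 θ v + (v : ℂ) ^ 2 * ee θ v ^ 3) volume x y := by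
      intro x y
      have hc := cont_c0 hθ
      have i1 : IntervalIntegrable (fun v : ℝ => ((v : ℂ) * c0 θ v) * ee θ v ^ 2) volume x y :=
        (ii_ee_pow hθ 2 x y).continuousOn_mul (by fun_prop)
      have i2 : IntervalIntegrable (fun v : ℝ => (v : ℂ) ^ 2 * ee θ v ^ 3) volume x y :=
        (ii_ee_pow hθ 3 x y).continuousOn_mul (by fun_prop)
      have e3 : (fun v : ℝ => (v : ℂ) * ee θ v ^ 2 * c0 θ v + (v : ℂ) ^ 2 * ee θ v ^ 3) =
          fun v : ℝ => ((v : ℂ) * c0 θ v) * ee θ v ^ 2 + (v : ℂ) ^ 2 * ee θ v ^ 3 := by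
        funext v
        ring
      rw [e3]
      exact i1.add i2
    have hs : c2 θ a' = c2 θ a - 2 * ∫ v in a'..a,
        ((v : ℂ) * ee θ v ^ 2 * c0 θ v + (v : ℂ) ^ 2 * ee θ v ^ 3) := by
      unfold c2
      rw [← intervalIntegral.integral_add_adjacent_intervals (hii a' a) (hii a 1)]
      ring
    have hint : ∫ v in a'..a, ((v : ℂ) * ee θ v ^ 2 * c0 θ v + (v : ℂ) ^ 2 * ee θ v ^ 3) =
        e ^ 2 * (c0 θ a - 2 * e * a) * ((a : ℂ) ^ 2 - (a' : ℂ) ^ 2) / 2 +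
          (3 * e ^ 3) * ((a : ℂ) ^ 3 - (a' : ℂ) ^ 3) / 3 := by
      rw [int_congr_Ioc h
        (g' := fun v => e ^ 2 * (c0 θ a - 2 * e * a) * (v : ℂ) + (3 * e ^ 3) * (v : ℂ) ^ 2)
        (fun u hu => ?_), int_poly]
      have hu' := c0_ev hθ hu.2 (fun v hv => ht v ⟨hu.1.trans hv.1, hv.2⟩)
      rw [hee u hu, hu', ← he]
      ring
    rw [hs, hint, e0]
    ring

end Pool.Agent.Helper67.B4
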